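import Pool.Agent.N889.AO.Stm

/-! Project AO (helper889), REDC: a nonconstant polynomial has roots modulo arbitrarily large
primes. -/

set_option autoImplicit false

namespace Pool.Agent.N296.AO

open Polynomial
open Pool.Agent.N889.AO

theorem stmRedC : StmRedC := by
  intro f hf B
  by_cases hc : f.coeff 0 = 0
  · obtain ⟨p, hp, hpp⟩ := Nat.exists_infinite_primes (B + 1)
    refine ⟨p, ⟨hpp⟩, by omega, 0, ?_⟩
    rw [IsRoot.def, ← coeff_zero_eq_eval_zero, coeff_map, hc]
    simp
  · obtain ⟨c, hcc⟩ : ∃ c, c = f.coeff 0 := ⟨_, rfl⟩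
    obtain ⟨N, hN⟩ : ∃ N : ℤ, N = ((B.factorial : ℕ) : ℤ) := ⟨_, rfl⟩
    have hN0 : N ≠ 0 := by
      rw [hN]
      exact_mod_cast B.factorial_ne_zero
    have hc0 : c ≠ 0 := by rw [hcc]; exact hc
    have hfin : ∀ a : ℤ, {y : ℤ | f.eval (c * N * y) = a}.Finite := by
      intro a
      have h1 : f - C a ≠ 0 := by
        intro h0
        have h2 : f = C a := sub_eq_zero.1 h0
        rw [h2, natDegree_C] at hf
        exact lt_irrefl _ hf
      have h3 := (finite_setOfPred_isRoot h1).preimage (f := fun y : ℤ => c * N * y)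
        (fun x _ y _ hxy => mul_left_cancel₀ (mul_ne_zero hc0 hN0) hxy)
      refine h3.subset ?_
      intro y hy
      show IsRoot (f - C a) (c * N * y)
      rw [IsRoot.def, eval_sub, eval_C, sub_eq_zero]
      exact hy
    obtain ⟨y, hy⟩ := (((hfin 0).union (hfin c)).union (hfin (-c))).infinite_compl.nonempty
    have hy0 : f.eval (c * N * y) ≠ 0 := fun h => hy (Or.inl (Or.inl h))
    have hy1 : f.eval (c * N * y) ≠ c := fun h => hy (Or.inl (Or.inr h))
    have hy2 : f.eval (c * N * y) ≠ -c := fun h => hy (Or.inr h)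
    obtain ⟨g, hg⟩ : ∃ g, g = (divX f).eval (c * N * y) := ⟨_, rfl⟩
    have he : f.eval (c * N * y) = c * (1 + N * y * g) := by
      conv_lhs => rw [← divX_mul_X_add f]
      rw [eval_add, eval_mul, eval_X, eval_C, ← hg, ← hcc]
      ring
    obtain ⟨w, hw⟩ : ∃ w, w = 1 + N * y * g := ⟨_, rfl⟩
    rw [← hw] at he
    rw [he] at hy0 hy1 hy2
    have hw1 : w.natAbs ≠ 1 := by
      intro h
      rcases Int.natAbs_eq_iff.1 h with h | h
      · exact hy1 (by rw [h]; simp)
      · exact hy2 (by rw [h]; simp)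
    obtain ⟨p, hp, hpw⟩ := Nat.exists_prime_and_dvd hw1
    have hpw' : (p : ℤ) ∣ w := Int.natCast_dvd.2 hpw
    refine ⟨p, ⟨hp⟩, ?_, ((c * N * y : ℤ) : ZMod p), ?_⟩
    · by_contra hle
      push Not at hle
      have h1 : (p : ℤ) ∣ N := by
        rw [hN]
        exact_mod_cast Nat.dvd_factorial hp.pos hle
      have h2 : (p : ℤ) ∣ 1 := by
        have h3 : (1 : ℤ) = w - N * (y * g) := by rw [hw]; ring
        rw [h3]
        exact dvd_sub hpw' (dvd_mul_of_dvd_left h1 _)
      have h4 := Int.eq_one_of_dvd_one (by positivity) h2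
      have h5 : p = 1 := by exact_mod_cast h4
      exact hp.one_lt.ne' h5
    · rw [IsRoot.def, eval_intCast_map, Int.cast_id, he, eq_intCast]
      have h6 : ((c * w : ℤ) : ZMod p) = 0 :=
        (ZMod.intCast_zmod_eq_zero_iff_dvd _ p).2 (dvd_mul_of_dvd_right hpw' c)
      exact h6

end Pool.Agent.N296.AO
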